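import Pool.Agent.Helper19.PS.Fac

set_option autoImplicit false

/-!
# Profinite completions exist; the commutator of the free group of rank two
-/

namespace Pool.Agent.Helper19.PS

open Pool.Agent.Q24.PF Pool.Agent.Helper122.Cuts

theorem exists_completion (F : Type) [Group F] :
    ∃ (G : Type) (_ : Group G) (_ : TopologicalSpace G) (_ : IsTopologicalGroup G)
      (_ : CompactSpace G) (_ : T2Space G) (_ : TotallyDisconnectedSpace G) (ι : F →* G),
      DenseRange ι ∧ ∀ (Q : Type) [Group Q] [Finite Q] (φ : F →* Q),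
        ∃ ψ : G →* Q, (∀ f, ψ (ι f) = φ f) ∧ IsOpen (ψ.ker : Set G) := by
  let F' := GrpCat.of F
  let G := ProfiniteGrp.ProfiniteCompletion.completion F'
  let ι : F →* G := (ProfiniteGrp.ProfiniteCompletion.eta F').hom
  refine ⟨G, inferInstance, inferInstance, inferInstance, inferInstance, inferInstance,
    inferInstance, ι, ?_, ?_⟩
  · exact ProfiniteGrp.ProfiniteCompletion.denseRange F'
  · intro Q _ _ φ
    let P : ProfiniteGrp.{0} := ProfiniteGrp.ofFiniteGrp (FiniteGrp.of Q)
    let L := ProfiniteGrp.ProfiniteCompletion.lift (G := F') (P := P) (GrpCat.ofHom φ)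
    refine ⟨L.hom.toMonoidHom, ?_, ?_⟩
    · intro f
      have h1 := ProfiniteGrp.ProfiniteCompletion.lift_eta (G := F') (P := P) (GrpCat.ofHom φ)
      exact CategoryTheory.ConcreteCategory.congr_hom h1 f
    · have hd : DiscreteTopology P := ⟨rfl⟩
      have hc : Continuous L.hom := L.hom.continuous_toFun
      exact (isOpen_discrete ({1} : Set P)).preimage hc

theorem commutator_not_mem {A : Subgroup (FreeGroup Bool)} {K : Subgroup (FreeGroup Bool)}
    (h : Function.Bijective (Monoid.Coprod.lift A.subtype K.subtype))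
    (hg : FreeGroup.of true * FreeGroup.of false * (FreeGroup.of true)⁻¹ *
      (FreeGroup.of false)⁻¹ ∈ A) : A = ⊤ := by
  classical
  by_contra hA
  let l := Monoid.Coprod.lift A.subtype K.subtype
  let e : Monoid.Coprod A K ≃* FreeGroup Bool := MulEquiv.ofBijective l h
  have hel : ∀ a : A, e.symm a = Monoid.Coprod.inl a := by
    intro a
    rw [MulEquiv.symm_apply_eq]
    exact (Monoid.Coprod.lift_apply_inl A.subtype K.subtype a).symm
  have her : ∀ a : K, e.symm a = Monoid.Coprod.inr a := by
    intro a
    rw [MulEquiv.symm_apply_eq]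
    exact (Monoid.Coprod.lift_apply_inr A.subtype K.subtype a).symm
  have hK : K ≠ ⊥ := by
    intro hK
    apply hA
    rw [eq_top_iff]
    intro x _
    obtain ⟨w, hw⟩ := h.2 x
    have h1 : l.range ≤ A := by
      rw [Monoid.Coprod.range_lift, A.range_subtype, K.range_subtype, hK, sup_bot_eq]
    rw [← hw]
    exact h1 ⟨w, rfl⟩
  let M := Multiplicative (ZMod 2)
  -- the homomorphisms
  obtain ⟨S, hS⟩ := exists_bas_of_free (K := A) inferInstance
  obtain ⟨S', hS'⟩ := exists_bas_of_free (K := K) inferInstance
  obtain ⟨eA, heA⟩ := hS.retr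
  obtain ⟨eK, heK⟩ := hS'.retr
  have hS'ne : S'.Nonempty := by
    by_contra hno
    rw [Set.not_nonempty_iff_eq_empty] at hno
    apply hK
    rw [← hS'.2, hno, Subgroup.closure_empty]
  have hSA : ∀ s ∈ S, s ∈ A := by
    intro s hs
    rw [← hS.2]
    exact Subgroup.subset_closure hs
  have hSK : ∀ s ∈ S', s ∈ K := by
    intro s hs
    rw [← hS'.2]
    exact Subgroup.subset_closure hs
  -- the basis of `A` has at most one element
  have hsub : ∀ s ∈ S, ∀ s' ∈ S, s = s' := by
    intro s hs s' hs'
    by_contra hne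
    obtain ⟨r, hr⟩ := hS'ne
    let v : (Bool × Bool × Bool) → (S → M) × (S' → M) := fun c =>
      (fun x => if (x : FreeGroup Bool) = s then (if c.1 then Multiplicative.ofAdd 1 else 1)
        else if (x : FreeGroup Bool) = s' then (if c.2.1 then Multiplicative.ofAdd 1 else 1) else 1,
        fun _ => if c.2.2 then Multiplicative.ofAdd 1 else 1)
    let χ : (Bool × Bool × Bool) → (FreeGroup Bool →* M) := fun c =>
      (Monoid.Coprod.lift ((FreeGroup.lift (v c).1).comp eA.toMonoidHom)
        ((FreeGroup.lift (v c).2).comp eK.toMonoidHom)).comp e.symm.toMonoidHom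
    have hχA : ∀ c (x : FreeGroup Bool) (hx : x ∈ S), χ c x = (v c).1 ⟨x, hx⟩ := by
      intro c x hx
      change (Monoid.Coprod.lift ((FreeGroup.lift (v c).1).comp eA.toMonoidHom)
        ((FreeGroup.lift (v c).2).comp eK.toMonoidHom)) (e.symm x) = _
      rw [hel ⟨x, hSA x hx⟩, Monoid.Coprod.lift_apply_inl]
      change FreeGroup.lift (v c).1 (eA ⟨x, hSA x hx⟩) = _
      rw [heA ⟨x, hx⟩ (hSA x hx), FreeGroup.lift_apply_of]
    have hχK : ∀ c (x : FreeGroup Bool) (hx : x ∈ S'), χ c x = (v c).2 ⟨x, hx⟩ := by
      intro c x hx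
      change (Monoid.Coprod.lift ((FreeGroup.lift (v c).1).comp eA.toMonoidHom)
        ((FreeGroup.lift (v c).2).comp eK.toMonoidHom)) (e.symm x) = _
      rw [her ⟨x, hSK x hx⟩, Monoid.Coprod.lift_apply_inr]
      change FreeGroup.lift (v c).2 (eK ⟨x, hSK x hx⟩) = _
      rw [heK ⟨x, hx⟩ (hSK x hx), FreeGroup.lift_apply_of]
    have hM : (Multiplicative.ofAdd 1 : M) ≠ 1 := by decide
    have hb : ∀ b b' : Bool, (if b = true then (Multiplicative.ofAdd 1 : M) else 1) =
        (if b' = true then Multiplicative.ofAdd 1 else 1) → b = b' := by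
      intro b b' hbb
      cases b <;> cases b'
      · rfl
      · exact absurd hbb.symm hM
      · exact absurd hbb hM
      · rfl
    have hχi : Function.Injective χ := by
      rintro ⟨a, b, c⟩ ⟨a', b', c'⟩ hh
      have h1 := DFunLike.congr_fun hh s
      have h2 := DFunLike.congr_fun hh s'
      have h3 := DFunLike.congr_fun hh r
      rw [hχA _ s hs, hχA _ s hs] at h1
      rw [hχA _ s' hs', hχA _ s' hs'] at h2
      rw [hχK _ r hr, hχK _ r hr] at h3
      simp only [v, if_true] at h1 h3
      simp only [v, if_neg (fun h => hne h.symm : ¬ s' = s), if_true] at h2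
      rw [hb _ _ h1, hb _ _ h2, hb _ _ h3]
    have hinj2 : Function.Injective (fun f : FreeGroup Bool →* M =>
        (f (FreeGroup.of true), f (FreeGroup.of false))) := by
      intro f f' hff
      apply FreeGroup.ext_hom
      intro b
      cases b
      · exact congrArg Prod.snd hff
      · exact congrArg Prod.fst hff
    have hcard := Fintype.card_le_of_injective _ (hinj2.comp hχi)
    have h8 : Fintype.card (Bool × Bool × Bool) = 8 := rfl
    have h4 : Fintype.card (M × M) = 4 := rfl
    omega
  -- so `A` is commutative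
  have hcom : ∀ a b : A, a * b = b * a := by
    have hss : Subsingleton S := ⟨fun x y => Subtype.ext (hsub x x.2 y y.2)⟩
    have hF : ∀ x y : FreeGroup S, x * y = y * x := by
      intro x y
      have hz : ∀ z : FreeGroup S, ∀ s : S, z * FreeGroup.of s = FreeGroup.of s * z := by
        intro z s
        induction z using FreeGroup.induction_on with
        | C1 => rw [one_mul, mul_one]
        | of t => rw [Subsingleton.elim t s]
        | inv_of t _ => rw [Subsingleton.elim t s, inv_mul_cancel, mul_inv_cancel]
        | mul a b ha hb => rw [mul_assoc, hb, ← mul_assoc, ha, mul_assoc]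
      induction y using FreeGroup.induction_on with
      | C1 => rw [one_mul, mul_one]
      | of t => exact hz x t
      | inv_of t _ =>
        rw [mul_inv_eq_iff_eq_mul, mul_assoc, hz x t, inv_mul_cancel_left]
      | mul a b ha hb => rw [← mul_assoc, ha, mul_assoc, hb, mul_assoc]
    intro a b
    apply eA.injective
    rw [map_mul, map_mul, hF]
  -- the retraction
  let r : FreeGroup Bool →* A := (Monoid.Coprod.lift (MonoidHom.id A) (1 : K →* A)).comp
    e.symm.toMonoidHom
  have hr : ∀ a : A, r a = a := by
    intro a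
    change (Monoid.Coprod.lift (MonoidHom.id A) (1 : K →* A)) (e.symm a) = a
    rw [hel, Monoid.Coprod.lift_apply_inl]
    rfl
  have h1 := hr ⟨_, hg⟩
  have h2 : r (FreeGroup.of true * FreeGroup.of false * (FreeGroup.of true)⁻¹ *
      (FreeGroup.of false)⁻¹) = 1 := by
    rw [map_mul, map_mul, map_mul, map_inv, map_inv, hcom (r (FreeGroup.of true)),
      mul_inv_cancel_right, mul_inv_cancel]
  have h3 : (1 : A) = ⟨_, hg⟩ := h2.symm.trans h1
  have h4 : (1 : FreeGroup Bool) = FreeGroup.of true * FreeGroup.of false *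
    (FreeGroup.of true)⁻¹ * (FreeGroup.of false)⁻¹ := congrArg Subtype.val h3
  revert h4
  decide

end Pool.Agent.Helper19.PS
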