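import Pool.Agent.Q24.PF.Pil

set_option autoImplicit false

/-!
# A fixed point and a free orbit
-/

namespace Pool.Agent.Helper19.PS

open Pool.Agent.Q24.PF

/-- the pile of a fixed point and a free orbit -/
def cone (G : Type) [Group G] [TopologicalSpace G] [IsTopologicalGroup G] : Pile G (Unit ⊕ G) where
  act o g := Sum.map id (fun x => x * g) o
  act_one := by
    rintro (_ | x)
    · rfl
    · simp
  act_mul := by
    rintro (_ | x) g h
    · rfl
    · simp [mul_assoc]
  cont := by
    have e : (fun x : (Unit ⊕ G) × G => Sum.map id (fun y => y * x.2) x.1) =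
        (Sum.map (fun _ : Unit × G => ()) (fun y : G × G => y.1 * y.2)) ∘
          (Homeomorph.sumProdDistrib (X := Unit) (Y := G) (Z := G)) := by
      funext x
      obtain ⟨_ | y, g⟩ := x
      · rfl
      · rfl
    rw [e]
    exact (Continuous.sumMap continuous_const continuous_mul).comp (Homeomorph.continuous _)

theorem cone_projective (G : Type) [Group G] [TopologicalSpace G] [IsTopologicalGroup G] :
    IsProjective (cone G) := by
  intro A X B Y _ _ _ _ _ _ _ _ _ _ _ _ _ _ 𝒜 ℬ φ α hepi hrig
  obtain ⟨hs, hm, hst⟩ := hepi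
  obtain ⟨y₀, hy₀, hy₀'⟩ := hst (φ.map (Sum.inl ()))
  have hφ0 : ∀ g, φ.hom g ∈ 𝒜.stab (φ.map (Sum.inl ())) := by
    intro g
    rw [Pile.mem_stab, ← φ.equivariant]
    rfl
  have hex : ∀ g, ∃ b ∈ ℬ.stab y₀, α.hom b = φ.hom g := by
    intro g
    have h1 := hφ0 g
    rw [← hy₀'] at h1
    obtain ⟨b, hb, hb2⟩ := h1
    exact ⟨b, hb, hb2⟩
  choose γ hγ1 hγ2 using hex
  have hinj : Set.InjOn α.hom (ℬ.stab y₀) := (hrig.1 y₀).injOn
  let γh : G →* B := MonoidHom.mk' γ (by
    intro a b
    apply hinj (hγ1 _) ((ℬ.stab y₀).mul_mem (hγ1 a) (hγ1 b))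
    rw [hγ2, map_mul, map_mul, hγ2, hγ2])
  obtain ⟨y₁, hy₁⟩ := hm (φ.map (Sum.inr 1))
  have hγc : Continuous γh := by
    rw [continuous_discrete_rng]
    intro b
    by_cases hb : b ∈ ℬ.stab y₀
    · have e : γh ⁻¹' {b} = φ.hom ⁻¹' {α.hom b} := by
        ext g
        rw [Set.mem_preimage, Set.mem_singleton_iff, Set.mem_preimage, Set.mem_singleton_iff]
        constructor
        · rintro rfl
          exact (hγ2 g).symm
        · intro h
          apply hinj (hγ1 g) hb
          rw [hγ2, h]
      rw [e]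
      exact (isOpen_discrete _).preimage φ.hom_cont
    · have e : γh ⁻¹' {b} = ∅ := by
        ext g
        rw [Set.mem_preimage, Set.mem_singleton_iff]
        constructor
        · rintro rfl
          exact absurd (hγ1 g) hb
        · intro h
          exact h.elim
      rw [e]
      exact isOpen_empty
  refine ⟨{ hom := γh
            map := Sum.elim (fun _ => y₀) (fun x => ℬ.act y₁ (γh x))
            hom_cont := hγc
            map_cont := ?_
            equivariant := ?_ }, fun g => hγ2 g, ?_⟩
  · apply Continuous.sumElim continuous_const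
    exact (continuous_of_discreteTopology (f := fun b : B => ℬ.act y₁ b)).comp hγc
  · rintro (_ | x) g
    · exact (hγ1 g).symm
    · change ℬ.act y₁ (γh (x * g)) = ℬ.act (ℬ.act y₁ (γh x)) (γh g)
      rw [map_mul, ℬ.act_mul]
  · rintro (u | x)
    · exact hy₀
    · change α.map (ℬ.act y₁ (γh x)) = φ.map (Sum.inr x)
      rw [α.equivariant, hy₁]
      have h1 : α.hom (γh x) = φ.hom x := hγ2 x
      rw [h1, ← φ.equivariant]
      change φ.map (Sum.inr (1 * x)) = _
      rw [one_mul]

end Pool.Agent.Helper19.PS
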