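import Pool.Agent.Q24.PF.Der

set_option autoImplicit false

/-!
# A finite module from a lack of derivations
-/

namespace Pool.Agent.Helper19.PS

open Pool.Agent.Q24.PF Pool.Agent.Helper122.Cuts

section

variable {α : Type} {p : ℕ}

/-- **The completion argument.** Suppose that all derivations `F → k[F]` which vanish at `g` are zero,
let `π : F → A` be an epimorphism to a finite group, and `j` an index of a generator. Then there is a
finite right module `W` of `F` with an element `u` and a free `A`-submodule with the basis `m 1` such that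
`u · D_j(g) = m 1` and `u · D_i(g) = 0` for `i ≠ j`, where `D_i` are the Fox derivations. -/
theorem module_of_noder [Finite α] [DecidableEq α] [Fact p.Prime] (g : FreeGroup α)
    (hno : ∀ D : FreeGroup α → (FreeGroup α →₀ ZMod p), IsDer D → D g = 0 → ∀ f, D f = 0)
    {A : Type} [Group A] [Finite A] (π : FreeGroup α →* A) (hπ : Function.Surjective π) (j : α)
    (D : α → FreeGroup α → (FreeGroup α →₀ ZMod p)) (hD : ∀ i, IsDer (D i))
    (hDv : ∀ i l, D i (FreeGroup.of l) = if l = i then Finsupp.single 1 1 else 0) :
    ∃ (W : Type) (_ : AddCommGroup W) (_ : Module (ZMod p) W) (_ : Finite W)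
      (Y : α → (W ≃ₗ[ZMod p] W)) (u : W) (m : A → W), LinearIndependent (ZMod p) m ∧
      (∀ i a, Y i (m a) = m (a * π (FreeGroup.of i))) ∧
      ∀ i, Finsupp.linearCombination (ZMod p) (fun f => (ract Y f).unop u) (D i g) =
        if i = j then m 1 else 0 := by
  classical
  cases nonempty_fintype α
  cases nonempty_fintype A
  let k := ZMod p
  let M := FreeGroup α →₀ k
  let πL : M →ₗ[k] (A →₀ k) := Finsupp.lmapDomain k k π
  have hπs : ∀ (x : FreeGroup α) (a : k), πL (Finsupp.single x a) = Finsupp.single (π x) a :=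
    fun x a => Finsupp.mapDomain_single
  have hπr : ∀ (s : FreeGroup α) (x : M),
      πL (rt s x) = Finsupp.lmapDomain k k (fun b => b * π s) (πL x) := by
    intro s x
    have : πL ∘ₗ (rt (p := p) s).toLinearMap =
        (Finsupp.lmapDomain k k (fun b => b * π s)) ∘ₗ πL := by
      apply Finsupp.lhom_ext
      intro y a
      simp only [LinearMap.comp_apply, LinearEquiv.coe_coe]
      rw [rt_single, hπs, hπs, Finsupp.lmapDomain_apply, Finsupp.mapDomain_single, map_mul]
    exact LinearMap.congr_fun this x
  -- the submodule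
  let P : Submodule k M :=
    { carrier := {x | ∃ E, IsDer E ∧ πL (E (FreeGroup.of j)) = 0 ∧ x = E g}
      add_mem' := by
        rintro x y ⟨E, h1, h2, h3⟩ ⟨E', h1', h2', h3'⟩
        exact ⟨_, IsDer.add h1 h1', by rw [map_add, h2, h2', add_zero], by rw [h3, h3']⟩
      zero_mem' := ⟨_, isDer_zero, map_zero _, rfl⟩
      smul_mem' := by
        rintro c x ⟨E, h1, h2, h3⟩
        exact ⟨_, IsDer.smul h1 c, by rw [map_smul, h2, smul_zero], by rw [h3]⟩ }
  have hP : ∀ x : M, x ∈ P ↔ ∃ E, IsDer E ∧ πL (E (FreeGroup.of j)) = 0 ∧ x = E g :=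
    fun x => Iff.rfl
  have hPr : ∀ (s : FreeGroup α) (x : M), x ∈ P → rt s x ∈ P := by
    rintro s x ⟨E, h1, h2, h3⟩
    exact ⟨_, IsDer.rt h1 s, by rw [hπr, h2, map_zero], by rw [h3]⟩
  have hPm : ∀ s : FreeGroup α, P.map (rt (p := p) s).toLinearMap = P := by
    intro s
    apply le_antisymm
    · rintro _ ⟨x, hx, rfl⟩
      exact hPr s x hx
    · intro x hx
      refine ⟨rt s⁻¹ x, hPr _ x hx, ?_⟩
      change rt s (rt s⁻¹ x) = x
      rw [rt_rt, inv_mul_cancel, rt_one]
  let Q := M ⧸ P
  let X : α → (Q ≃ₗ[k] Q) := fun i =>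
    Submodule.Quotient.equiv P P (rt (FreeGroup.of i)) (hPm (FreeGroup.of i))
  have hX : ∀ (i : α) (x : M), X i (Submodule.Quotient.mk x) =
      Submodule.Quotient.mk (rt (FreeGroup.of i) x) := fun i x => rfl
  have hact : ∀ (s : FreeGroup α) (x : M),
      (ract X s).unop (Submodule.Quotient.mk x : Q) = Submodule.Quotient.mk (rt s x) := by
    intro s
    induction s using FreeGroup.induction_on with
    | C1 =>
      intro x
      rw [map_one, rt_one]
      rfl
    | of i =>
      intro x
      unfold ract
      rw [FreeGroup.lift_apply_of]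
      exact hX i x
    | inv_of i _ =>
      intro x
      unfold ract
      rw [map_inv, FreeGroup.lift_apply_of]
      change (X i).symm _ = _
      rw [LinearEquiv.symm_apply_eq, hX, rt_rt, inv_mul_cancel, rt_one]
    | mul a b ha hb =>
      intro x
      rw [ract_mul, ha, hb, rt_rt]
  let μ : M := D j g
  choose sec hsec using hπ
  let mQ : A → Q := fun a => Submodule.Quotient.mk (rt (sec a) μ)
  have hjj : D j (FreeGroup.of j) = Finsupp.single 1 1 := by rw [hDv, if_pos rfl]
  have hm : ∀ f : FreeGroup α, (Submodule.Quotient.mk (rt f μ) : Q) = mQ (π f) := by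
    intro f
    simp only [mQ]
    rw [Submodule.Quotient.eq, hP]
    refine ⟨_, IsDer.add (IsDer.rt (hD j) f) (IsDer.neg (IsDer.rt (hD j) (sec (π f)))), ?_, ?_⟩
    · rw [hjj, rt_single, rt_single, one_mul, one_mul, map_add, map_neg, hπs, hπs, hsec,
        add_neg_cancel]
    · rw [sub_eq_add_neg]
  have hmQ : LinearIndependent k mQ := by
    rw [Fintype.linearIndependent_iff]
    intro c hc a₀
    have h1 : (∑ a : A, c a • rt (sec a) μ) ∈ P := by
      rw [← Submodule.Quotient.mk_eq_zero, ← hc, ← Submodule.mkQ_apply, map_sum]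
      refine Finset.sum_congr rfl fun a _ => ?_
      rw [map_smul]
      rfl
    obtain ⟨E, hE1, hE2, hE3⟩ := (hP _).1 h1
    have h2 : IsDer (fun f => E f + -∑ a : A, c a • rt (sec a) (D j f)) := by
      apply IsDer.add hE1
      apply IsDer.neg
      apply isDer_sum
      intro a _
      exact IsDer.smul (IsDer.rt (hD j) (sec a)) (c a)
    have h3 := hno _ h2 (by
      rw [← hE3]
      exact add_neg_cancel _) (FreeGroup.of j)
    beta_reduce at h3
    rw [hjj] at h3
    have h4 := congrArg πL h3
    rw [map_add, hE2, map_zero, zero_add, map_neg, neg_eq_zero, map_sum] at h4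
    have h5 : ∀ a : A, πL (c a • rt (sec a) (Finsupp.single 1 1)) = Finsupp.single a (c a) := by
      intro a
      rw [map_smul, rt_single, one_mul, hπs, hsec, Finsupp.smul_single, smul_eq_mul, mul_one]
    rw [Finset.sum_congr rfl (fun a _ => h5 a)] at h4
    have h6 := DFunLike.congr_fun h4 a₀
    rw [Finsupp.finsetSum_apply, Finset.sum_eq_single a₀] at h6
    · rwa [Finsupp.single_eq_same] at h6
    · intro b _ hb
      rw [Finsupp.single_apply, if_neg hb]
    · intro h
      exact absurd (Finset.mem_univ _) h
  -- the family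
  let fam : Option A → Q := fun o =>
    match o with
    | none => Submodule.Quotient.mk (Finsupp.single 1 1)
    | some a => mQ a
  obtain ⟨n, hn1, hn⟩ : ∃ n : ℕ, 1 ≤ n ∧ ∀ (i : α), ∀ f ∈ (D i g).support,
      f.toWord.length ≤ n := by
    refine ⟨max 1 (Finset.univ.sup (fun i => (D i g).support.sup
      (fun f : FreeGroup α => f.toWord.length))), le_max_left _ _, ?_⟩
    intro i f hf
    have h1 := Finset.le_sup (f := fun f : FreeGroup α => f.toWord.length) hf
    have h3 := Finset.le_sup (f := fun i => (D i g).support.sup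
      (fun f : FreeGroup α => f.toWord.length)) (Finset.mem_univ i)
    exact (h1.trans h3).trans (le_max_right _ _)
  obtain ⟨W, hW, Y, hqW, hY⟩ := complete X fam n
  have hWf : Finite W := Module.finite_of_finite k
  let u : W := ⟨fam none, hqW none⟩
  let m : A → W := fun a => ⟨mQ a, hqW (some a)⟩
  refine ⟨W, inferInstance, inferInstance, hWf, Y, u, m, ?_, ?_, ?_⟩
  · exact LinearIndependent.of_comp W.subtype hmQ
  · intro i a
    apply Subtype.ext
    have h1 := hY (some a) [(i, true)] hn1
    have h2 : ((Y i (m a) : W) : Q) = X i (mQ a) := h1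
    rw [h2]
    change X i (Submodule.Quotient.mk (rt (sec a) μ)) = mQ (a * π (FreeGroup.of i))
    rw [hX, rt_rt, hm, map_mul, hsec]
  · intro i
    have hYg : ∀ f : FreeGroup α, f.toWord.length ≤ n →
        (((ract Y f).unop u : W) : Q) = Submodule.Quotient.mk (Finsupp.single f 1) := by
      intro f hf
      have h1 := hY none f.toWord hf
      have e : f = FreeGroup.mk f.toWord := FreeGroup.mk_toWord.symm
      have h2 : (ract Y f).unop u = wd Y f.toWord u := by
        conv_lhs => rw [e]
        exact ract_mk Y _ _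
      have h3 : (ract X f).unop (fam none) = wd X f.toWord (fam none) := by
        conv_lhs => rw [e]
        exact ract_mk X _ _
      have h4 : (ract X f).unop (fam none) = Submodule.Quotient.mk (Finsupp.single f 1) := by
        change (ract X f).unop (Submodule.Quotient.mk (Finsupp.single 1 1)) = _
        rw [hact, rt_single, one_mul]
      rw [h2, ← h4, h3]
      exact h1
    have h1 : ((Finsupp.linearCombination k (fun f => (ract Y f).unop u) (D i g) : W) : Q) =
        Submodule.Quotient.mk (D i g) := by
      have hψ : (P.mkQ : M →ₗ[k] Q) =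
          Finsupp.linearCombination k (fun f => P.mkQ (Finsupp.single f 1)) := by
        apply Finsupp.lhom_ext
        intro f a
        rw [Finsupp.linearCombination_single, ← map_smul, Finsupp.smul_single, smul_eq_mul,
          mul_one]
      have h2 : (Submodule.Quotient.mk (D i g) : Q) = P.mkQ (D i g) := rfl
      rw [h2, hψ, Finsupp.linearCombination_apply, Finsupp.linearCombination_apply, Finsupp.sum,
        Finsupp.sum, Submodule.coe_sum]
      refine Finset.sum_congr rfl fun f hf => ?_
      rw [Submodule.coe_smul, hYg f (hn i f hf)]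
      rfl
    apply Subtype.ext
    by_cases hi : i = j
    · subst hi
      rw [if_pos rfl, h1]
      have h2 := hm 1
      rw [rt_one, map_one] at h2
      exact h2
    · rw [if_neg hi, h1, ZeroMemClass.coe_zero, Submodule.Quotient.mk_eq_zero, hP]
      refine ⟨D i, hD i, ?_, rfl⟩
      rw [hDv, if_neg (fun h => hi h.symm), map_zero]

/-- The formula of Fox for cocycles. -/
theorem cocycle_formula [Fintype α] [DecidableEq α] [Fact p.Prime] {W : Type} [AddCommGroup W]
    [Module (ZMod p) W] (Y : α → (W ≃ₗ[ZMod p] W))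
    (D : α → FreeGroup α → (FreeGroup α →₀ ZMod p)) (hD : ∀ i, IsDer (D i))
    (hDv : ∀ i l, D i (FreeGroup.of l) = if l = i then Finsupp.single 1 1 else 0)
    (C : FreeGroup α → Module.Dual (ZMod p) W)
    (hCm : ∀ f g u, C (f * g) u = C f u + C g ((ract Y f).unop u)) (f : FreeGroup α) :
    ∀ u : W, C f u = ∑ i : α, C (FreeGroup.of i)
      (Finsupp.linearCombination (ZMod p) (fun h => (ract Y h).unop u) (D i f)) := by
  let k := ZMod p
  let LC : W → (FreeGroup α →₀ ZMod p) →ₗ[k] W := fun u =>
    Finsupp.linearCombination k (fun g => (ract Y g).unop u)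
  have hrone : ∀ u, (ract Y 1).unop u = u := by
    intro u
    rw [map_one]
    rfl
  have hC1 : ∀ u, C 1 u = 0 := by
    intro u
    have h1 := hCm 1 1 u
    rw [mul_one, hrone] at h1
    linear_combination -h1
  have hLC : ∀ (u : W) (f : FreeGroup α) (x : FreeGroup α →₀ ZMod p),
      LC u (tl f x) = LC ((ract Y f).unop u) x := by
    intro u f x
    simp only [LC]
    unfold tl
    rw [Finsupp.linearCombination_mapDomain]
    congr 2
    funext g
    exact ract_mul Y f g u
  let Φ : FreeGroup α → W → k := fun f u => ∑ i : α, C (FreeGroup.of i) (LC u (D i f))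
  have hΦm : ∀ f g u, Φ (f * g) u = Φ f u + Φ g ((ract Y f).unop u) := by
    intro f g u
    simp only [Φ]
    rw [← Finset.sum_add_distrib]
    refine Finset.sum_congr rfl fun i _ => ?_
    rw [hD i f g, map_add, map_add, hLC]
  have hΦ1 : ∀ u, Φ 1 u = 0 := by
    intro u
    have h1 := hΦm 1 1 u
    rw [mul_one, hrone] at h1
    linear_combination -h1
  change ∀ u, C f u = Φ f u
  induction f using FreeGroup.induction_on with
  | C1 =>
    intro u
    rw [hC1, hΦ1]
  | of l =>
    intro u
    simp only [Φ]
    rw [Finset.sum_eq_single l]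
    · rw [hDv, if_pos rfl]
      simp only [LC]
      rw [Finsupp.linearCombination_single, one_smul, map_one]
      rfl
    · intro i _ hi
      rw [hDv, if_neg (fun h => hi h.symm), map_zero, map_zero]
    · intro h
      exact absurd (Finset.mem_univ l) h
  | inv_of l ih =>
    intro u
    have h1 := hCm (FreeGroup.of l) (FreeGroup.of l)⁻¹ ((ract Y (FreeGroup.of l)⁻¹).unop u)
    have h2 := hΦm (FreeGroup.of l) (FreeGroup.of l)⁻¹ ((ract Y (FreeGroup.of l)⁻¹).unop u)
    have h3 : (ract Y (FreeGroup.of l)).unop ((ract Y (FreeGroup.of l)⁻¹).unop u) = u := by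
      rw [← ract_mul, inv_mul_cancel, map_one]
      rfl
    rw [mul_inv_cancel, hC1, h3, ih] at h1
    rw [mul_inv_cancel, hΦ1, h3] at h2
    linear_combination h2 - h1
  | mul a b ha hb =>
    intro u
    rw [hCm, hΦm, ha, hb]

end

end Pool.Agent.Helper19.PS
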