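import Pool.Agent.Helper19.PS.Lift
import Pool.Agent.Helper19.PS.Core

set_option autoImplicit false

/-!
# Elements of point stabilizers of projective piles are killed by derivations
-/

namespace Pool.Agent.Helper19.PS

open Pool.Agent.Q24.PF Pool.Agent.Helper122.Cuts

theorem hom_eq_of_dense {F G Q : Type} [Group F] [Group G] [TopologicalSpace G]
    [IsTopologicalGroup G] [Group Q] (j : F →* G) (hd : DenseRange j) (φ ψ : G →* Q)
    (hφ : IsOpen (φ.ker : Set G)) (hψ : IsOpen (ψ.ker : Set G)) (h : ∀ f, φ (j f) = ψ (j f))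
    (x : G) : φ x = ψ x := by
  let tQ : TopologicalSpace Q := ⊥
  have dQ : DiscreteTopology Q := ⟨rfl⟩
  have := hd.equalizer (cont_of_open_ker φ hφ) (cont_of_open_ker ψ hψ) (funext h)
  exact congrFun this x

theorem open_ker_comp {G P Q : Type} [Group G] [TopologicalSpace G] [IsTopologicalGroup G]
    [Group P] [Group Q] (f : P →* Q) (g : G →* P) (hg : IsOpen (g.ker : Set G)) :
    IsOpen ((f.comp g).ker : Set G) := by
  refine Subgroup.isOpen_mono (H₁ := g.ker) ?_ hg
  intro x hx
  rw [MonoidHom.mem_ker] at hx ⊢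
  rw [MonoidHom.comp_apply, hx, map_one]

theorem surj_of_dense {F G Q : Type} [Group F] [Group G] [TopologicalSpace G]
    [IsTopologicalGroup G] [Group Q] (j : F →* G) (hd : DenseRange j) (φ : G →* Q)
    (hφ : IsOpen (φ.ker : Set G)) (hs : Function.Surjective φ) :
    Function.Surjective (φ.comp j) := by
  let tQ : TopologicalSpace Q := ⊥
  have dQ : DiscreteTopology Q := ⟨rfl⟩
  have hc := cont_of_open_ker φ hφ
  intro a
  obtain ⟨x, rfl⟩ := hs a
  obtain ⟨f, hf⟩ := hd.exists_mem_open ((isOpen_discrete {φ x}).preimage hc) ⟨x, rfl⟩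
  exact ⟨f, hf⟩

/-- a proper closed subgroup of a profinite group is seen by a finite quotient -/
theorem exists_quot {G : Type} [Group G] [TopologicalSpace G] [IsTopologicalGroup G]
    [CompactSpace G] [TotallyDisconnectedSpace G] (L : Subgroup G) (hL : IsClosed (L : Set G))
    (hne : L ≠ ⊤) :
    ∃ (A : Type) (_ : Group A) (_ : Finite A) (π : G →* A) (A₀ : Subgroup A),
      IsOpen (π.ker : Set G) ∧ Function.Surjective π ∧ A₀ ≠ ⊤ ∧ ∀ l ∈ L, π l ∈ A₀ := by
  obtain ⟨G₀, hG₀, hLG, hG₀ne⟩ : ∃ G₀ : Subgroup G, IsOpen (G₀ : Set G) ∧ L ≤ G₀ ∧ G₀ ≠ ⊤ := by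
    by_contra hno
    apply hne
    have h1 : L = sInf {N : Subgroup G | IsOpen (N : Set G) ∧ L ≤ N} :=
      ProfiniteGrp.closedSubgroup_eq_sInf_open (⟨L, hL⟩ : ClosedSubgroup G)
    rw [h1]
    apply le_antisymm le_top
    apply le_sInf
    rintro N ⟨hN1, hN2⟩
    by_contra hN
    exact hno ⟨N, hN1, hN2, fun h => hN h.ge⟩
  have hfin : Finite (G ⧸ G₀) := Subgroup.quotient_finite_of_isOpen G₀ hG₀
  have hfi : G₀.FiniteIndex := Subgroup.finiteIndex_of_finite_quotient
  let N := G₀.normalCore
  have hNo : IsOpen (N : Set G) := Subgroup.isOpen_of_isClosed_of_finiteIndex _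
    (Subgroup.normalCore_isClosed G₀ (Subgroup.isClosed_of_isOpen G₀ hG₀))
  have hfA : Finite (G ⧸ N) := Subgroup.quotient_finite_of_isOpen N hNo
  refine ⟨G ⧸ N, inferInstance, hfA, QuotientGroup.mk' N, G₀.map (QuotientGroup.mk' N), ?_,
    QuotientGroup.mk'_surjective N, ?_, fun l hl => ⟨l, hLG hl, rfl⟩⟩
  · rw [QuotientGroup.ker_mk']
    exact hNo
  · intro h
    apply hG₀ne
    rw [eq_top_iff]
    intro x _
    have hx : QuotientGroup.mk' N x ∈ G₀.map (QuotientGroup.mk' N) := by
      rw [h]
      exact Subgroup.mem_top _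
    obtain ⟨y, hy, hyx⟩ := hx
    have h2 : y⁻¹ * x ∈ N := QuotientGroup.eq.1 hyx
    have h3 := G₀.mul_mem hy (Subgroup.normalCore_le G₀ h2)
    rwa [mul_inv_cancel_left] at h3

/-- the compatible pairs -/
def compat {k W A : Type} [Field k] [AddCommGroup W] [Module k W] [Group A] (m : A → W) :
    Subgroup ((W ≃ₗ[k] W)ᵐᵒᵖ × A) where
  carrier := {x | ∀ b, x.1.unop (m b) = m (b * x.2)}
  mul_mem' := by
    intro x y hx hy b
    change y.1.unop (x.1.unop (m b)) = m (b * (x.2 * y.2))
    rw [hx b, hy (b * x.2), mul_assoc]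
  one_mem' := by
    intro b
    change m b = m (b * 1)
    rw [mul_one]
  inv_mem' := by
    intro x hx b
    change x.1.unop.symm (m b) = m (b * x.2⁻¹)
    rw [LinearEquiv.symm_apply_eq, hx, inv_mul_cancel_right]

theorem mem_compat {k W A : Type} [Field k] [AddCommGroup W] [Module k W] [Group A] (m : A → W)
    (x : (W ≃ₗ[k] W)ᵐᵒᵖ × A) : x ∈ compat m ↔ ∀ b, x.1.unop (m b) = m (b * x.2) := Iff.rfl

section actions

variable {k W A : Type} [Field k] [AddCommGroup W] [Module k W] [Group A] (m : A → W)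

/-- the action on the dual module -/
def act1 : compat (k := k) m →* MulAut (Multiplicative (Module.Dual k W)) :=
  MonoidHom.mk' (fun x => AddEquiv.toMultiplicative (x.1.1.unop.dualMap).toAddEquiv) (by
    intro x y
    refine MulEquiv.ext fun v => ?_
    apply Multiplicative.toAdd.injective
    apply LinearMap.ext
    intro w
    rfl)

theorem act1_apply (x : compat (k := k) m) (v : Multiplicative (Module.Dual k W)) (w : W) :
    Multiplicative.toAdd (act1 m x v) w = (Multiplicative.toAdd v) (x.1.1.unop w) := rfl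

/-- the action on the functions -/
def act2 : compat (k := k) m →* MulAut (Multiplicative (A → k)) :=
  MonoidHom.mk' (fun x => AddEquiv.toMultiplicative
    (LinearEquiv.funCongrLeft k k (Equiv.mulRight x.1.2)).toAddEquiv) (by
    intro x y
    refine MulEquiv.ext fun v => ?_
    apply Multiplicative.toAdd.injective
    funext b
    change (Multiplicative.toAdd v) (b * (x.1.2 * y.1.2)) =
      (Multiplicative.toAdd v) (b * x.1.2 * y.1.2)
    rw [mul_assoc])

theorem act2_apply (x : compat (k := k) m) (v : Multiplicative (A → k)) (b : A) :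
    Multiplicative.toAdd (act2 m x v) b = (Multiplicative.toAdd v) (b * x.1.2) := rfl

/-- the restriction of functionals -/
def resm : Multiplicative (Module.Dual k W) →* Multiplicative (A → k) :=
  AddMonoidHom.toMultiplicative
    { toFun := fun v b => v (m b)
      map_zero' := rfl
      map_add' := fun _ _ => rfl }

omit [Group A] in
theorem resm_apply (v : Multiplicative (Module.Dual k W)) (b : A) :
    Multiplicative.toAdd (resm m v) b = (Multiplicative.toAdd v) (m b) := rfl

omit [Group A] in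
theorem resm_surj (hm : LinearIndependent k m) : Function.Surjective (resm (k := k) m) := by
  intro v
  let B := Module.Basis.span hm
  let f : Submodule.span k (Set.range m) →ₗ[k] k := B.constr k (Multiplicative.toAdd v)
  obtain ⟨w, hw⟩ := LinearMap.exists_extend f
  refine ⟨Multiplicative.ofAdd w, ?_⟩
  apply Multiplicative.toAdd.injective
  funext b
  rw [resm_apply]
  change w (m b) = _
  have h1 : (B b : W) = m b := congrArg Subtype.val (Module.Basis.span_apply hm b)
  have h2 : f (B b) = (Multiplicative.toAdd v) b := B.constr_basis k _ b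
  rw [← h2, ← hw, ← h1]
  rfl

theorem resm_equi (x : compat (k := k) m) : (resm m).comp (act1 m x).toMonoidHom =
    (act2 m x).toMonoidHom.comp (resm m) := by
  refine MonoidHom.ext fun v => ?_
  apply Multiplicative.toAdd.injective
  funext b
  change (Multiplicative.toAdd v) (x.1.1.unop (m b)) = (Multiplicative.toAdd v) (m (b * x.1.2))
  rw [(mem_compat m x.1).1 x.2 b]

/-- the epimorphism of the semidirect products -/
def qmap : (Multiplicative (Module.Dual k W) ⋊[act1 m] compat (k := k) m) →*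
    (Multiplicative (A → k) ⋊[act2 m] compat (k := k) m) :=
  SemidirectProduct.map (resm m) (MonoidHom.id _) (resm_equi m)

theorem qmap_surj (hm : LinearIndependent k m) : Function.Surjective (qmap (k := k) m) := by
  rintro ⟨v, x⟩
  obtain ⟨w, hw⟩ := resm_surj m hm v
  refine ⟨⟨w, x⟩, ?_⟩
  apply SemidirectProduct.ext
  · exact hw
  · rfl

end actions

/-- **Elements of proper point stabilizers are killed by derivations.** -/
theorem exists_der_of_pile {α : Type} [Finite α] {p : ℕ} [Fact p.Prime] {G T : Type} [Group G]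
    [TopologicalSpace G] [IsTopologicalGroup G] [CompactSpace G] [TotallyDisconnectedSpace G]
    [TopologicalSpace T] [CompactSpace T] [T2Space T] [TotallyDisconnectedSpace T]
    (𝒢 : Pile G T) (h𝒢 : IsProjective 𝒢) (j : FreeGroup α →* G) (hd : DenseRange j)
    (hj : ∀ (Q : Type) [Group Q] [Finite Q] (φ : FreeGroup α →* Q),
      ∃ ψ : G →* Q, (∀ f, ψ (j f) = φ f) ∧ IsOpen (ψ.ker : Set G))
    (t : T) (hne : 𝒢.stab t ≠ ⊤) (g : FreeGroup α) (hg : j g ∈ 𝒢.stab t) :
    ∃ D : FreeGroup α → (FreeGroup α →₀ ZMod p), IsDer D ∧ D g = 0 ∧ ∃ f, D f ≠ 0 := by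
  classical
  cases nonempty_fintype α
  have hp0 : NeZero p := ⟨(Fact.out : p.Prime).ne_zero⟩
  by_contra hcon
  have hno : ∀ D : FreeGroup α → (FreeGroup α →₀ ZMod p), IsDer D → D g = 0 →
      ∀ f, D f = 0 := by
    intro D h1 h2 f
    by_contra h3
    exact hcon ⟨D, h1, h2, f, h3⟩
  have hcl : IsClosed (𝒢.stab t : Set G) := by
    have hct : Continuous (fun g => 𝒢.act t g) :=
      𝒢.cont.comp (continuous_const.prodMk continuous_id)
    exact isClosed_singleton.preimage hct
  obtain ⟨A, _, _, πG, A₀, hπo, hπs, hA₀, hLA⟩ := exists_quot (𝒢.stab t) hcl hne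
  let π : FreeGroup α →* A := πG.comp j
  have hπ : Function.Surjective π := surj_of_dense j hd πG hπo hπs
  obtain ⟨i₀, hi₀⟩ : ∃ i, π (FreeGroup.of i) ∉ A₀ := by
    by_contra hall
    apply hA₀
    rw [eq_top_iff]
    intro a _
    obtain ⟨f, rfl⟩ := hπ a
    have h1 : (⊤ : Subgroup (FreeGroup α)) ≤ A₀.comap π := by
      rw [← FreeGroup.closure_range_of, Subgroup.closure_le]
      rintro _ ⟨i, rfl⟩
      by_contra h
      exact hall ⟨i, h⟩
    exact h1 (Subgroup.mem_top f)
  choose D hD hDv using fun i : α => exists_der (p := p)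
    (fun l : α => if l = i then (Finsupp.single 1 1 : FreeGroup α →₀ ZMod p) else 0)
  obtain ⟨W, _, _, _, Y, u, m, hm, hYm, hu⟩ := module_of_noder g hno π hπ i₀ D hD hDv
  let k := ZMod p
  have hVf : Finite (Module.Dual k W) :=
    Finite.of_injective (fun v : Module.Dual k W => (v : W → k)) DFunLike.coe_injective
  have hMf : Finite (W ≃ₗ[k] W) := Finite.of_injective (fun e : W ≃ₗ[k] W => (e : W → W))
    (fun e e' h => LinearEquiv.ext (fun x => congrFun h x))
  have hMf' : Finite (W ≃ₗ[k] W)ᵐᵒᵖ := Finite.of_equiv _ MulOpposite.opEquiv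
  let Γ := compat (k := k) m
  have hΓf : Finite Γ := inferInstance
  let Φ : FreeGroup α →* Γ := FreeGroup.lift (fun i =>
    ⟨(MulOpposite.op (Y i), π (FreeGroup.of i)), fun b => hYm i b⟩)
  have hΦ1 : ∀ f, (Φ f).1.1 = ract Y f := by
    have : ((MonoidHom.fst _ _).comp Γ.subtype).comp Φ = ract Y := by
      apply FreeGroup.ext_hom
      intro i
      unfold ract
      simp only [Φ, MonoidHom.comp_apply, FreeGroup.lift_apply_of]
      rfl
    exact fun f => DFunLike.congr_fun this f
  have hΦ2 : ∀ f, (Φ f).1.2 = π f := by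
    have : ((MonoidHom.snd _ _).comp Γ.subtype).comp Φ = π := by
      apply FreeGroup.ext_hom
      intro i
      simp only [Φ, MonoidHom.comp_apply, FreeGroup.lift_apply_of]
      rfl
    exact fun f => DFunLike.congr_fun this f
  obtain ⟨ΦG, hΦG, hΦGo⟩ := hj Γ Φ
  have hΦG2 : ∀ x, (ΦG x).1.2 = πG x := by
    apply hom_eq_of_dense j hd (((MonoidHom.snd _ _).comp Γ.subtype).comp ΦG) πG
      (open_ker_comp _ _ hΦGo) hπo
    intro f
    change (ΦG (j f)).1.2 = π f
    rw [hΦG, hΦ2]
  let P := Multiplicative (Module.Dual k W) ⋊[act1 m] Γ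
  let Q := Multiplicative (A → k) ⋊[act2 m] Γ
  have hPf : Finite P := Finite.of_equiv _ (SemidirectProduct.equivProd).symm
  let q : P →* Q := qmap m
  have hq : Function.Surjective q := qmap_surj m hm
  let v₀ : Multiplicative (A → k) := Multiplicative.ofAdd (fun a => if a ∈ A₀ then 1 else 0)
  let κ : G →* P := SemidirectProduct.inr.comp ΦG
  let ρG : G →* Q := ((MulAut.conj (SemidirectProduct.inl v₀)⁻¹).toMonoidHom.comp
    SemidirectProduct.inr).comp ΦG
  have hρG : ∀ x, ρG x = (SemidirectProduct.inl v₀)⁻¹ * SemidirectProduct.inr (ΦG x) *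
      SemidirectProduct.inl v₀ := by
    intro x
    change (SemidirectProduct.inl v₀)⁻¹ * SemidirectProduct.inr (ΦG x) *
      (SemidirectProduct.inl v₀)⁻¹⁻¹ = _
    rw [inv_inv]
  have hκo : IsOpen (κ.ker : Set G) := open_ker_comp _ _ hΦGo
  have hρo : IsOpen (ρG.ker : Set G) := open_ker_comp _ _ hΦGo
  -- a lift
  choose sec hsec using hq
  let τF : FreeGroup α →* P := FreeGroup.lift (fun i => sec (ρG (j (FreeGroup.of i))))
  have hτF : ∀ f, q (τF f) = ρG (j f) := by
    have : q.comp τF = ρG.comp j := by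
      apply FreeGroup.ext_hom
      intro i
      rw [MonoidHom.comp_apply]
      simp only [τF, FreeGroup.lift_apply_of]
      exact hsec _
    exact fun f => DFunLike.congr_fun this f
  obtain ⟨τ0, hτ0, hτ0o⟩ := hj P τF
  have hqτ0 : ∀ x, q (τ0 x) = ρG x := by
    apply hom_eq_of_dense j hd (q.comp τ0) ρG (open_ker_comp _ _ hτ0o) hρo
    intro f
    rw [MonoidHom.comp_apply, hτ0, hτF]
  have hL : ∀ l ∈ 𝒢.stab t, q (κ l) = ρG l := by
    intro l hl
    have h1 : act2 m (ΦG l) v₀ = v₀ := by
      apply Multiplicative.toAdd.injective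
      funext b
      rw [act2_apply, hΦG2]
      change (if b * πG l ∈ A₀ then (1 : k) else 0) = if b ∈ A₀ then 1 else 0
      rw [A₀.mul_mem_cancel_right (hLA l hl)]
    have h2 : q (κ l) = SemidirectProduct.inr (ΦG l) := by
      apply SemidirectProduct.ext
      · exact map_one (resm m)
      · rfl
    rw [h2, hρG]
    have h3 : (SemidirectProduct.inl (act2 m (ΦG l) v₀) : Q) =
      SemidirectProduct.inr (ΦG l) * SemidirectProduct.inl v₀ *
        SemidirectProduct.inr (ΦG l)⁻¹ := SemidirectProduct.inl_aut _ _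
    rw [h1, map_inv, eq_mul_inv_iff_mul_eq] at h3
    rw [mul_assoc, ← h3, inv_mul_cancel_left]
  obtain ⟨τ, hτ1, hτ2⟩ := lift_of_pile 𝒢 h𝒢 t q ρG κ τ0 hκo hτ0o hqτ0 hL
  -- the cocycle
  let C : FreeGroup α → Module.Dual k W := fun f => Multiplicative.toAdd (τ (j f)).left
  have hright : ∀ f, (τ (j f)).right = Φ f := by
    intro f
    have h1 : (q (τ (j f))).right = (τ (j f)).right := rfl
    rw [← h1, hτ1, hρG]
    change SemidirectProduct.rightHom ((SemidirectProduct.inl v₀)⁻¹ *
      SemidirectProduct.inr (ΦG (j f)) * SemidirectProduct.inl v₀ : Q) = Φ f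
    rw [map_mul, map_mul, map_inv, SemidirectProduct.rightHom_inl,
      SemidirectProduct.rightHom_inr, inv_one, one_mul, mul_one, hΦG]
  have hCm : ∀ f h w, C (f * h) w = C f w + C h ((ract Y f).unop w) := by
    intro f h w
    simp only [C]
    rw [map_mul, map_mul, SemidirectProduct.mul_left, hright, toAdd_mul, LinearMap.add_apply,
      act1_apply, hΦ1]
  have hCg : C g = 0 := by
    simp only [C]
    rw [hτ2 _ hg]
    rfl
  have hCv : ∀ f, C f (m 1) = (if π f ∈ A₀ then (1 : k) else 0) - 1 := by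
    intro f
    have h1 : (q (τ (j f))).left = resm m (τ (j f)).left := rfl
    have h2 : C f (m 1) = Multiplicative.toAdd (q (τ (j f))).left 1 := by
      rw [h1, resm_apply]
    have h3 : (q (τ (j f))).left = v₀⁻¹ * act2 m (Φ f) v₀ := by
      rw [hτ1, hρG, ← map_inv, SemidirectProduct.mul_left, SemidirectProduct.mul_left]
      simp [hΦG]
    rw [h2, h3, toAdd_mul, toAdd_inv, Pi.add_apply, Pi.neg_apply, act2_apply, hΦ2, one_mul]
    change -(if (1 : A) ∈ A₀ then (1 : k) else 0) + (if π f ∈ A₀ then (1 : k) else 0) = _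
    rw [if_pos A₀.one_mem]
    ring
  have hF := cocycle_formula Y D hD hDv C hCm g u
  rw [hCg, Finset.sum_eq_single i₀] at hF
  · rw [hu, if_pos rfl, hCv, if_neg hi₀, LinearMap.zero_apply, zero_sub] at hF
    have h1 : (1 : k) = 0 := by
      rw [← neg_eq_zero]
      exact hF.symm
    exact one_ne_zero h1
  · intro i _ hi
    rw [hu, if_neg hi, map_zero]
  · intro h
    exact absurd (Finset.mem_univ _) h

end Pool.Agent.Helper19.PS
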