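import Pool.Agent.Q24.PF.Der3
import Pool.Agent.Helper19.PS.Main

set_option autoImplicit false

/-!
# Free factors
-/

namespace Pool.Agent.Helper19.PS

open Pool.Agent.Q24.PF Pool.Agent.Helper122.Cuts

/-- a basis of a subgroup which extends to a basis of the group gives a free factor -/
theorem coprod_of_bas {F : Type} [Group F] {A : Subgroup F} {S T : Set F} (hS : Bas S A)
    (hST : Bas (S ∪ T) (⊤ : Subgroup F)) :
    ∃ K : Subgroup F, Function.Bijective (Monoid.Coprod.lift A.subtype K.subtype) := by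
  classical
  obtain ⟨e2, he2⟩ := hST.retr
  have hA : ∀ s ∈ S, s ∈ A := by
    intro s hs
    rw [← hS.2]
    exact Subgroup.subset_closure hs
  let K : Subgroup F := Subgroup.closure (T \ S)
  have hK : ∀ s ∈ S ∪ T, s ∉ S → s ∈ K := fun s hs hs2 =>
    Subgroup.subset_closure ⟨hs.resolve_left hs2, hs2⟩
  refine ⟨K, ?_⟩
  let C := Monoid.Coprod A K
  let g0 : ↥(S ∪ T) → C := fun s =>
    if hs : (s : F) ∈ S then Monoid.Coprod.inl ⟨s, hA _ hs⟩
    else Monoid.Coprod.inr ⟨s, hK _ s.2 hs⟩
  let Ψ : F →* C := ((FreeGroup.lift g0).comp e2.toMonoidHom).comp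
    (Subgroup.topEquiv : (⊤ : Subgroup F) ≃* F).symm.toMonoidHom
  have hΨ0 : ∀ s (hs : s ∈ S ∪ T), Ψ s = g0 ⟨s, hs⟩ := by
    intro s hs
    change (FreeGroup.lift g0) (e2 ⟨s, Subgroup.mem_top s⟩) = _
    have := he2 ⟨s, hs⟩ (Subgroup.mem_top s)
    rw [this, FreeGroup.lift_apply_of]
  let l : C →* F := Monoid.Coprod.lift A.subtype K.subtype
  have hlΨ : ∀ f, l (Ψ f) = f := by
    have : l.comp Ψ = MonoidHom.id F := by
      apply MonoidHom.eq_of_eqOn_dense hST.2
      intro s hs
      rw [MonoidHom.comp_apply, hΨ0 s hs]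
      simp only [g0]
      split_ifs with h
      · exact Monoid.Coprod.lift_apply_inl _ _ _
      · exact Monoid.Coprod.lift_apply_inr _ _ _
    exact fun f => DFunLike.congr_fun this f
  have hΨA : ∀ f, ∀ hf : f ∈ A, Ψ f = Monoid.Coprod.inl ⟨f, hf⟩ := by
    intro f hf
    have hf2 : f ∈ Subgroup.closure S := by rwa [hS.2]
    induction hf2 using Subgroup.closure_induction with
    | mem s hs =>
      rw [hΨ0 s (Or.inl hs)]
      simp only [g0]
      rw [dif_pos hs]
    | one =>
      rw [map_one]
      have : (⟨1, hf⟩ : A) = 1 := rfl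
      rw [this, map_one]
    | mul a b ha hb iha ihb =>
      have ha' : a ∈ A := by rwa [hS.2] at ha
      have hb' : b ∈ A := by rwa [hS.2] at hb
      rw [map_mul, iha ha', ihb hb', ← map_mul]
      rfl
    | inv a ha iha =>
      have ha' : a ∈ A := by rwa [hS.2] at ha
      rw [map_inv, iha ha', ← map_inv]
      rfl
  have hΨK : ∀ f, ∀ hf : f ∈ K, Ψ f = Monoid.Coprod.inr ⟨f, hf⟩ := by
    intro f hf
    have hf2 : f ∈ Subgroup.closure (T \ S) := hf
    induction hf2 using Subgroup.closure_induction with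
    | mem s hs =>
      rw [hΨ0 s (Or.inr hs.1)]
      simp only [g0]
      rw [dif_neg hs.2]
    | one =>
      rw [map_one]
      have : (⟨1, hf⟩ : K) = 1 := rfl
      rw [this, map_one]
    | mul a b ha hb iha ihb =>
      rw [map_mul, iha ha, ihb hb, ← map_mul]
      rfl
    | inv a ha iha =>
      rw [map_inv, iha ha, ← map_inv]
      rfl
  have hΨl : ∀ c, Ψ (l c) = c := by
    have : Ψ.comp l = MonoidHom.id C := by
      apply Monoid.Coprod.hom_ext
      · apply MonoidHom.ext
        intro h
        change Ψ (l (Monoid.Coprod.inl h)) = Monoid.Coprod.inl h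
        have h1 : l (Monoid.Coprod.inl h) = h := Monoid.Coprod.lift_apply_inl _ _ _
        rw [h1]
        exact hΨA h h.2
      · apply MonoidHom.ext
        intro h
        change Ψ (l (Monoid.Coprod.inr h)) = Monoid.Coprod.inr h
        have h1 : l (Monoid.Coprod.inr h) = h := Monoid.Coprod.lift_apply_inr _ _ _
        rw [h1]
        exact hΨK h h.2
    exact fun c => DFunLike.congr_fun this c
  exact ⟨Function.LeftInverse.injective hΨl, Function.RightInverse.surjective hlΨ⟩

/-- transport of free factors -/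
theorem coprod_comap {F F' : Type} [Group F] [Group F'] (e : F ≃* F') {A K : Subgroup F'}
    (h : Function.Bijective (Monoid.Coprod.lift A.subtype K.subtype)) :
    Function.Bijective (Monoid.Coprod.lift (A.comap e.toMonoidHom).subtype
      (K.comap e.toMonoidHom).subtype) := by
  have hex : ∀ B : Subgroup F', ∃ eB : B.comap e.toMonoidHom ≃* B, ∀ x, ((eB x : B) : F') = e x := by
    intro B
    refine ⟨MulEquiv.ofBijective ((e.toMonoidHom.comp (B.comap e.toMonoidHom).subtype).codRestrict B
      (fun x => x.2)) ⟨?_, ?_⟩, fun x => rfl⟩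
    · intro x y hxy
      have h1 : e x = e y := congrArg Subtype.val hxy
      exact Subtype.ext (e.injective h1)
    · rintro ⟨y, hy⟩
      refine ⟨⟨e.symm y, ?_⟩, ?_⟩
      · change e (e.symm y) ∈ B
        rw [MulEquiv.apply_symm_apply]
        exact hy
      · apply Subtype.ext
        exact e.apply_symm_apply y
  obtain ⟨eA, heA⟩ := hex A
  obtain ⟨eK, heK⟩ := hex K
  let c : Monoid.Coprod (A.comap e.toMonoidHom) (K.comap e.toMonoidHom) ≃* Monoid.Coprod A K :=
    MulEquiv.coprodCongr eA eK
  have hcomp : Monoid.Coprod.lift (A.comap e.toMonoidHom).subtype (K.comap e.toMonoidHom).subtype =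
      (e.symm.toMonoidHom.comp (Monoid.Coprod.lift A.subtype K.subtype)).comp c.toMonoidHom := by
    apply Monoid.Coprod.hom_ext
    · apply MonoidHom.ext
      intro x
      have h1 : c (Monoid.Coprod.inl x) = Monoid.Coprod.inl (eA x) := rfl
      simp only [MonoidHom.comp_apply, Monoid.Coprod.lift_apply_inl]
      change (x : F) = e.symm (Monoid.Coprod.lift A.subtype K.subtype (c (Monoid.Coprod.inl x)))
      rw [h1, Monoid.Coprod.lift_apply_inl]
      change (x : F) = e.symm (eA x : A)
      rw [heA, MulEquiv.symm_apply_apply]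
    · apply MonoidHom.ext
      intro x
      have h1 : c (Monoid.Coprod.inr x) = Monoid.Coprod.inr (eK x) := rfl
      simp only [MonoidHom.comp_apply, Monoid.Coprod.lift_apply_inr]
      change (x : F) = e.symm (Monoid.Coprod.lift A.subtype K.subtype (c (Monoid.Coprod.inr x)))
      rw [h1, Monoid.Coprod.lift_apply_inr]
      change (x : F) = e.symm (eK x : K)
      rw [heK, MulEquiv.symm_apply_apply]
  rw [hcomp]
  exact (e.symm.bijective.comp h).comp c.bijective

/-- **The kernel of a derivation.** -/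
theorem factor_of_der {α : Type} [Finite α] (D : FreeGroup α → (FreeGroup α →₀ ZMod 2))
    (hD : IsDer D) (hne : ∃ f, D f ≠ 0) (g : FreeGroup α) (hg : D g = 0) :
    ∃ A K : Subgroup (FreeGroup α), Function.Bijective (Monoid.Coprod.lift A.subtype K.subtype) ∧
      A ≠ ⊤ ∧ g ∈ A := by
  have hp : Fact (Nat.Prime 2) := ⟨Nat.prime_two⟩
  have hKfg : (⊤ : Subgroup (FreeGroup α)).FG :=
    (Group.fg_iff_subgroup_fg _).1 (Group.fg_of_surjective
      (f := (Subgroup.topEquiv : (⊤ : Subgroup (FreeGroup α)) ≃* FreeGroup α).symm.toMonoidHom)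
      (Subgroup.topEquiv : (⊤ : Subgroup (FreeGroup α)) ≃* FreeGroup α).symm.surjective)
  have hfree : ∀ K : Subgroup (FreeGroup α), K.FG → ∃ S, Bas S K := by
    intro K _
    exact exists_bas_of_free inferInstance
  obtain ⟨_, T, hT⟩ := ker_factor (tf_free α) (lip_free α 2) (freeAct_self (FreeGroup α)) hfree
    hD _ ⊤ hKfg rfl
  rw [inf_top_eq] at hT
  obtain ⟨S, hS⟩ := exists_bas_of_free (K := dker D hD) inferInstance
  obtain ⟨K, hK⟩ := coprod_of_bas hS (hT S hS)
  refine ⟨dker D hD, K, hK, ?_, ?_⟩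
  · intro h
    obtain ⟨f, hf⟩ := hne
    apply hf
    have : f ∈ dker D hD := by
      rw [h]
      exact Subgroup.mem_top f
    rwa [mem_dker] at this
  · rw [mem_dker]
    exact hg

end Pool.Agent.Helper19.PS
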