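import Pool.Agent.Q24.PF.Pil

set_option autoImplicit false

/-!
# Lifts with prescribed restrictions to the stabilizer of a point of a projective pile
-/

namespace Pool.Agent.Helper19.PS

open Pool.Agent.Q24.PF

theorem cont_of_open_ker {G Q : Type} [Group G] [TopologicalSpace G] [IsTopologicalGroup G]
    [Group Q] [TopologicalSpace Q] [DiscreteTopology Q] (ψ : G →* Q)
    (h : IsOpen (ψ.ker : Set G)) : Continuous ψ := by
  rw [continuous_discrete_rng]
  intro a
  by_cases ha : ∃ g, ψ g = a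
  · obtain ⟨g, rfl⟩ := ha
    have e : ψ ⁻¹' {ψ g} = (fun x => g⁻¹ * x) ⁻¹' (ψ.ker : Set G) := by
      ext x
      rw [Set.mem_preimage, Set.mem_singleton_iff, Set.mem_preimage, SetLike.mem_coe,
        MonoidHom.mem_ker, map_mul, map_inv, inv_mul_eq_one, eq_comm]
    rw [e]
    exact h.preimage (continuous_const_mul _)
  · have e : ψ ⁻¹' {a} = ∅ := by
      ext x
      constructor
      · intro hx
        exact absurd ⟨x, hx⟩ ha
      · intro hx
        exact hx.elim
    rw [e]
    exact isOpen_empty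

/-- **Lifting over a point stabilizer.** Let `(G, T)` be a projective pile, `t ∈ T`, `q : P → Q` a
homomorphism of groups, `P` finite, and `ρ : G → Q` a homomorphism with a continuous lift `τ0` to `P`.
If `κ : G → P` is continuous and `q κ = ρ` on the stabilizer of `t`, then `ρ` has a lift which agrees
with `κ` on the stabilizer of `t`. -/
theorem lift_of_pile {G T : Type} [Group G] [TopologicalSpace G]
    [IsTopologicalGroup G] [CompactSpace G] [TopologicalSpace T] [CompactSpace T] [T2Space T]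
    [TotallyDisconnectedSpace T] (𝒢 : Pile G T) (h𝒢 : IsProjective 𝒢) (t : T)
    {P Q : Type} [Group P] [Group Q] [Finite P] (q : P →* Q)
    (ρ : G →* Q) (κ τ0 : G →* P) (hκ : IsOpen (κ.ker : Set G)) (hτo : IsOpen (τ0.ker : Set G))
    (hτ0 : ∀ x, q (τ0 x) = ρ x) (hL : ∀ l ∈ 𝒢.stab t, q (κ l) = ρ l) :
    ∃ τ : G →* P, (∀ x, q (τ x) = ρ x) ∧ ∀ l ∈ 𝒢.stab t, τ l = κ l := by
  classical
  let θ' : G →* P × P := κ.prod τ0
  let A := θ'.range
  have hA : Finite A := inferInstance
  let ψ : G →* A := θ'.rangeRestrict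
  have hψs : Function.Surjective ψ := θ'.rangeRestrict_surjective
  have hψ1 : ∀ x, (ψ x).1.1 = κ x := fun x => rfl
  have hψ2 : ∀ x, (ψ x).1.2 = τ0 x := fun x => rfl
  have hψo : IsOpen (ψ.ker : Set G) := by
    have e : (ψ.ker : Set G) = (κ.ker : Set G) ∩ (τ0.ker : Set G) := by
      ext x
      rw [SetLike.mem_coe, MonoidHom.mem_ker, Set.mem_inter_iff, SetLike.mem_coe, SetLike.mem_coe,
        MonoidHom.mem_ker, MonoidHom.mem_ker]
      constructor
      · intro h
        have h1 : (κ x, τ0 x) = (1 : P × P) := congrArg Subtype.val h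
        exact ⟨congrArg Prod.fst h1, congrArg Prod.snd h1⟩
      · rintro ⟨h1, h2⟩
        apply Subtype.ext
        change (κ x, τ0 x) = (1 : P × P)
        rw [h1, h2]
        rfl
    rw [e]
    exact hκ.inter hτo
  let tA : TopologicalSpace A := ⊥
  have dA : DiscreteTopology A := ⟨rfl⟩
  have hψc : Continuous ψ := cont_of_open_ker ψ hψo
  let A0 : Subgroup A := (𝒢.stab t).map ψ
  let G₁ : Subgroup G := A0.comap ψ
  have hG₁ : IsOpen (G₁ : Set G) := (isOpen_discrete (A0 : Set A)).preimage hψc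
  have hle : 𝒢.stab t ≤ G₁ := fun g hg => ⟨g, hg, rfl⟩
  obtain ⟨W, hW, htW, hWG⟩ := exists_block 𝒢 t G₁ hG₁ hle
  -- the finite piles
  let B : Subgroup (P × A) := (q.comp (MonoidHom.fst P A)).eqLocus
    ((q.comp (MonoidHom.snd P P)).comp (A.subtype.comp (MonoidHom.snd P A)))
  have hB : ∀ b : P × A, b ∈ B ↔ q b.1 = q b.2.1.2 := fun b => Iff.rfl
  let tB : TopologicalSpace B := ⊥
  have dB : DiscreteTopology B := ⟨rfl⟩
  let al : B →* A := (MonoidHom.snd P A).comp B.subtype
  have hal : Function.Surjective al := fun a => ⟨⟨(a.1.2, a), rfl⟩, rfl⟩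
  have hA0 : ∀ a ∈ A0, q a.1.1 = q a.1.2 := by
    rintro _ ⟨l, hl, rfl⟩
    change q (κ l) = q (τ0 l)
    rw [hL l hl, hτ0]
  let s1 : A0 →* B := ((((MonoidHom.fst P P).comp A.subtype).prod (MonoidHom.id A)).comp
    A0.subtype).codRestrict B (by
    intro a
    rw [hB]
    exact hA0 a.1 a.2)
  let s0 : A →* B := (((MonoidHom.snd P P).comp A.subtype).prod (MonoidHom.id A)).codRestrict B
    (fun a => rfl)
  let S : Bool → Subgroup B := fun i => if i = true then s1.range else s0.range
  let A' : Bool → Subgroup A := fun i => if i = true then A0 else ⊤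
  have hbij : ∀ i, Set.BijOn al (S i) (A' i) := by
    intro i
    cases i
    · change Set.BijOn al (s0.range : Set B) ((⊤ : Subgroup A) : Set A)
      refine ⟨fun _ _ => trivial, ?_, ?_⟩
      · rintro _ ⟨a, rfl⟩ _ ⟨a', rfl⟩ h
        have : a = a' := h
        rw [this]
      · intro a _
        exact ⟨s0 a, ⟨a, rfl⟩, rfl⟩
    · change Set.BijOn al (s1.range : Set B) (A0 : Set A)
      refine ⟨?_, ?_, ?_⟩
      · rintro _ ⟨a, rfl⟩
        exact a.2
      · rintro _ ⟨a, rfl⟩ _ ⟨a', rfl⟩ he
        have he' : a.1 = a'.1 := he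
        rw [Subtype.ext he']
      · intro a ha
        exact ⟨s1 ⟨a, ha⟩, ⟨⟨a, ha⟩, rfl⟩, rfl⟩
  let tX : TopologicalSpace (Σ i, A ⧸ A' i) := ⊥
  have dX : DiscreteTopology (Σ i, A ⧸ A' i) := ⟨rfl⟩
  let tY : TopologicalSpace (Σ i, B ⧸ S i) := ⊥
  have dY : DiscreteTopology (Σ i, B ⧸ S i) := ⟨rfl⟩
  obtain ⟨hepi, hrig⟩ := cosetMor_rigid al S A' hal hbij
  -- the morphism to the finite pile
  let f' : T → Σ i, A ⧸ A' i := fun w =>
    if h : ∃ g, 𝒢.act w g ∈ W then ⟨true, QuotientGroup.mk (ψ h.choose)⟩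
    else ⟨false, QuotientGroup.mk 1⟩
  have hf'1 : ∀ w g, 𝒢.act w g ∈ W → f' w = ⟨true, QuotientGroup.mk (ψ g)⟩ := by
    intro w g hg
    have h : ∃ g, 𝒢.act w g ∈ W := ⟨g, hg⟩
    simp only [f']
    rw [dif_pos h]
    congr 1
    rw [QuotientGroup.eq, ← map_inv, ← map_mul]
    have h1 := h.choose_spec
    have h2 : 𝒢.act (𝒢.act w h.choose) (h.choose⁻¹ * g) ∈ W := by
      rw [← 𝒢.act_mul, mul_inv_cancel_left]
      exact hg
    exact (hWG _ h1 _).1 h2
  have hf'0 : ∀ w, (¬ ∃ g, 𝒢.act w g ∈ W) → f' w = ⟨false, QuotientGroup.mk 1⟩ := by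
    intro w h
    simp only [f']
    rw [dif_neg h]
  have hsub : ∀ a b : A ⧸ A' false, a = b := by
    intro a b
    induction a using QuotientGroup.induction_on with
    | H a =>
      induction b using QuotientGroup.induction_on with
      | H b =>
        rw [QuotientGroup.eq]
        change a⁻¹ * b ∈ (⊤ : Subgroup A)
        exact Subgroup.mem_top _
  let φ : Mor 𝒢 (ofAct A (Σ i, A ⧸ A' i)) :=
    { hom := ψ
      map := f'
      hom_cont := hψc
      map_cont := by
        rw [continuous_discrete_rng]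
        have hcg : ∀ g : G, Continuous (fun w => 𝒢.act w g) := fun g =>
          𝒢.cont.comp (continuous_id.prodMk continuous_const)
        rintro ⟨i, c⟩
        cases i
        · have e : f' ⁻¹' {⟨false, c⟩} = (Prod.fst '' {x : T × G | 𝒢.act x.1 x.2 ∈ W})ᶜ := by
            ext w
            rw [Set.mem_preimage, Set.mem_singleton_iff, Set.mem_compl_iff]
            constructor
            · rintro h ⟨⟨w', g⟩, hg, rfl⟩
              have h1 := hf'1 w' g hg
              rw [h1] at h
              have h2 : true = false := congrArg Sigma.fst h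
              exact Bool.noConfusion h2
            · intro h
              rw [hf'0 w (fun ⟨g, hg⟩ => h ⟨(w, g), hg, rfl⟩)]
              congr 1
              exact hsub _ _
          rw [e]
          exact (((hW.isClosed.preimage 𝒢.cont).isCompact.image continuous_fst).isClosed).isOpen_compl
        · induction c using QuotientGroup.induction_on with
          | H a =>
            obtain ⟨g, rfl⟩ := hψs a
            have e : f' ⁻¹' {⟨true, QuotientGroup.mk (ψ g)⟩} = (fun w => 𝒢.act w g) ⁻¹' W := by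
              ext w
              rw [Set.mem_preimage, Set.mem_singleton_iff, Set.mem_preimage]
              constructor
              · intro h
                by_cases h0 : ∃ g', 𝒢.act w g' ∈ W
                · obtain ⟨g', hg'⟩ := h0
                  rw [hf'1 w g' hg', Sigma.mk.injEq] at h
                  have h2 := eq_of_heq h.2
                  rw [QuotientGroup.eq, ← map_inv, ← map_mul] at h2
                  have h3 := (hWG _ hg' (g'⁻¹ * g)).2 h2
                  rwa [← 𝒢.act_mul, mul_inv_cancel_left] at h3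
                · rw [hf'0 w h0] at h
                  have h2 : false = true := congrArg Sigma.fst h
                  exact Bool.noConfusion h2
              · intro h
                exact hf'1 w g h
            rw [e]
            exact hW.isOpen.preimage (hcg g)
      equivariant := by
        intro w g
        by_cases h0 : ∃ g', 𝒢.act w g' ∈ W
        · obtain ⟨g', hg'⟩ := h0
          have h1 : 𝒢.act (𝒢.act w g) (g⁻¹ * g') ∈ W := by
            rw [← 𝒢.act_mul, mul_inv_cancel_left]
            exact hg'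
          rw [hf'1 _ _ h1, hf'1 _ _ hg', map_mul, map_inv]
          rfl
        · have h1 : ¬ ∃ g', 𝒢.act (𝒢.act w g) g' ∈ W := by
            rintro ⟨g', hg'⟩
            rw [← 𝒢.act_mul] at hg'
            exact h0 ⟨_, hg'⟩
          rw [hf'0 _ h1, hf'0 _ h0]
          change (⟨false, _⟩ : Σ i, A ⧸ A' i) = ⟨false, _⟩
          congr 1
          exact hsub _ _ }
  obtain ⟨γ, hγ1, hγ2⟩ := h𝒢 A (Σ i, A ⧸ A' i) B (Σ i, B ⧸ S i) (ofAct A (Σ i, A ⧸ A' i))
    (ofAct B (Σ i, B ⧸ S i)) φ _ hepi hrig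
  -- the point over `t`
  obtain ⟨b, hb1, hb2⟩ : ∃ b : B, γ.map t = ⟨true, QuotientGroup.mk b⟩ ∧ al b = 1 := by
    have h1 := hγ2 t
    have h2 : φ.map t = ⟨true, QuotientGroup.mk (ψ 1)⟩ := hf'1 t 1 (by rw [𝒢.act_one]; exact htW)
    rw [h2] at h1
    generalize γ.map t = yy at h1 ⊢
    obtain ⟨i, y⟩ := yy
    have hi : i = true := congrArg Sigma.fst h1
    subst hi
    induction y using QuotientGroup.induction_on with
    | H b =>
      have h3 : (⟨true, QuotientGroup.mk (al b)⟩ : Σ i, A ⧸ A' i) =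
        ⟨true, QuotientGroup.mk (ψ 1)⟩ := h1
      rw [Sigma.mk.injEq] at h3
      have h4 := eq_of_heq h3.2
      rw [map_one, eq_comm, QuotientGroup.eq, inv_one, one_mul] at h4
      obtain ⟨s, hs, hs2⟩ := (hbij true).surjOn h4
      refine ⟨b * s⁻¹, ?_, ?_⟩
      · congr 1
        rw [QuotientGroup.eq]
        have e : b⁻¹ * (b * s⁻¹) = s⁻¹ := by group
        rw [e]
        exact (S true).inv_mem hs
      · rw [map_mul, map_inv, hs2, mul_inv_cancel]
  have hkey : ∀ l ∈ 𝒢.stab t, ∃ a : A0, b⁻¹ * γ.hom l * b = s1 a := by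
    intro l hl
    have h2 := γ.equivariant t l
    rw [(𝒢.mem_stab _ _).1 hl, hb1] at h2
    have h3 : (⟨true, QuotientGroup.mk b⟩ : Σ i, B ⧸ S i) =
      ⟨true, QuotientGroup.mk ((γ.hom l)⁻¹ * b)⟩ := h2
    rw [Sigma.mk.injEq] at h3
    have h4 := eq_of_heq h3.2
    rw [eq_comm, QuotientGroup.eq] at h4
    have e : ((γ.hom l)⁻¹ * b)⁻¹ * b = b⁻¹ * γ.hom l * b := by group
    rw [e] at h4
    obtain ⟨a, ha⟩ := h4
    exact ⟨a, ha.symm⟩
  have halg : ∀ g, al (γ.hom g) = ψ g := hγ1
  let pr : B →* P := (MonoidHom.fst P A).comp B.subtype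
  have hpr : ∀ b : B, q (pr b) = q ((al b).1.2) := fun b => b.2
  refine ⟨pr.comp ((MulAut.conj b⁻¹).toMonoidHom.comp γ.hom), ?_, ?_⟩
  · intro x
    change q (pr (b⁻¹ * γ.hom x * b⁻¹⁻¹)) = ρ x
    rw [hpr, inv_inv, map_mul, map_mul, map_inv, hb2, halg, inv_one, one_mul, mul_one]
    exact hτ0 x
  · intro l hl
    change pr (b⁻¹ * γ.hom l * b⁻¹⁻¹) = κ l
    rw [inv_inv]
    obtain ⟨a, ha⟩ := hkey l hl
    have h5 := congrArg al ha
    rw [map_mul, map_mul, map_inv, hb2, halg, inv_one, one_mul, mul_one] at h5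
    rw [ha]
    have h6 : a.1 = ψ l := h5.symm
    change a.1.1.1 = κ l
    rw [h6]
    exact hψ1 l

end Pool.Agent.Helper19.PS
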